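import Pool.Agent.R795.Thue.Defs

/-!
# TH-C and TH-A: paths in acyclic graphs
-/

namespace Pool.Agent.R795.Thue

open SimpleGraph

theorem consec_aux {V : Type} {G : SimpleGraph V} (hG : G.IsAcyclic) {u v : V} {p : G.Walk u v}
    (hp : p.IsPath) {a b : ℕ} (hb : b ≤ p.length) (hab : a < b)
    (hadj : G.Adj (p.getVert a) (p.getVert b)) : b = a + 1 := by
  have h1 : (p.take b).getVert a = p.getVert a := by
    rw [Walk.take_getVert, min_eq_right hab.le]
  rw [← h1] at hadj
  have hq : ((p.take b).drop a).IsPath := (hp.take b).drop a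
  have hlen : ((p.take b).drop a).length = b - a := by
    rw [Walk.drop_length, Walk.take_length, min_eq_left hb]
  have hr : (Walk.cons hadj Walk.nil).IsPath := by
    rw [Walk.cons_isPath_iff]
    refine ⟨Walk.IsPath.nil, ?_⟩
    rw [Walk.support_nil, List.mem_singleton]
    exact hadj.ne
  have h2 := hG.path_unique ⟨_, hq⟩ ⟨_, hr⟩
  have h3 := congrArg (fun q : G.Path _ _ => q.1.length) h2
  simp only [hlen, Walk.length_cons, Walk.length_nil] at h3
  omega

theorem consec : stmConsec := by
  intro V G hG u v p hp a b ha hb hadj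
  rcases lt_trichotomy a b with h | h | h
  · exact Or.inr (consec_aux hG hp hb h hadj)
  · subst h
    exact absurd hadj (G.loopless.irrefl _)
  · exact Or.inl (consec_aux hG hp ha h hadj.symm)

theorem attach : stmAttach := by
  intro V G H hG hH u v p hpH x x' s s' hx hx' hs hs' hxs hxs' hr
  by_contra hne
  have hb := (isAcyclic_iff_forall_adj_isBridge.1 hG) hxs
  rw [isBridge_iff] at hb
  apply hb
  set G' := G.deleteEdges {s(x, s)} with hG'
  have hadj' : ∀ a b, G'.Adj a b ↔ G.Adj a b ∧ s(a, b) ≠ s(x, s) := by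
    intro a b
    rw [hG', deleteEdges_adj, Set.mem_singleton_iff]
  have h1 : H ≤ G' := by
    intro a b hab
    rw [hadj']
    refine ⟨hH hab, ?_⟩
    intro h
    rw [Sym2.eq_iff] at h
    rcases h with ⟨_, h2⟩ | ⟨h2, _⟩
    · exact hpH b a hab.symm (h2 ▸ hs)
    · exact hpH a b hab (h2 ▸ hs)
  have h2 : G'.Reachable x x' := hr.mono h1
  have h3 : G'.Adj x' s' := by
    rw [hadj']
    refine ⟨hxs', ?_⟩
    intro h
    rw [Sym2.eq_iff] at h
    rcases h with ⟨_, h2⟩ | ⟨_, h2⟩
    · exact hne h2.symm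
    · exact hx (h2 ▸ hs')
  have h4 : ∀ t ∈ p.support, G'.Reachable u t := by
    classical
    intro t ht
    refine ⟨(p.takeUntil t ht).transfer G' ?_⟩
    intro e he
    have he' : e ∈ p.edges := Walk.edges_takeUntil_subset _ _ he
    revert he'
    refine Sym2.ind (fun a b he' => ?_) e
    rw [mem_edgeSet, hadj']
    refine ⟨Walk.adj_of_mem_edges _ he', ?_⟩
    intro h
    rw [h] at he'
    exact hx (Walk.fst_mem_support_of_mem_edges _ he')
  exact h2.trans (h3.reachable.trans ((h4 s' hs').symm.trans (h4 s hs)))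

end Pool.Agent.R795.Thue
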