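import Pool.Agent.R795.Thue.Defs

/-! TH-S: a path meeting all the bags of a component. -/

namespace Pool.Agent.R795.Thue

theorem spine_aux {V : Type} (G : SimpleGraph V) (B : ℕ → Finset V)
    (hadj : ∀ u v, G.Adj u v → ∃ i, u ∈ B i ∧ v ∈ B i)
    (hconv : ∀ v i j k, i ≤ j → j ≤ k → v ∈ B i → v ∈ B k → v ∈ B j) (i : ℕ) :
    ∀ (u v : V) (p : G.Walk u v), (∃ j, j ≤ i ∧ u ∈ B j) → (∃ k, i ≤ k ∧ v ∈ B k) →
      ∃ y ∈ p.support, y ∈ B i := by
  intro u v p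
  induction p with
  | nil =>
    rintro ⟨j, hj, hu⟩ ⟨k, hk, hv⟩
    exact ⟨_, by simp, hconv _ j i k hj hk hu hv⟩
  | @cons u w v h p ih =>
    rintro ⟨j, hj, hu⟩ hk
    obtain ⟨l, hul, hwl⟩ := hadj u w h
    rcases le_total i l with hil | hli
    · exact ⟨u, by simp, hconv u j i l hj hil hu hul⟩
    · obtain ⟨y, hy, hyi⟩ := ih ⟨l, hli, hwl⟩ hk
      exact ⟨y, by rw [SimpleGraph.Walk.support_cons]; exact List.mem_cons_of_mem _ hy, hyi⟩

theorem spine : stmSpine := by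
  classical
  intro V _ G B N hN hcov hadj hconv x0
  set S : Finset ℕ := (Finset.range N).filter (fun i => ∃ x, G.Reachable x0 x ∧ x ∈ B i) with hS
  have hmem : ∀ i x, G.Reachable x0 x → x ∈ B i → i ∈ S := by
    intro i x hx hxi
    rw [hS, Finset.mem_filter, Finset.mem_range]
    refine ⟨?_, x, hx, hxi⟩
    by_contra hlt
    rw [hN i (by omega)] at hxi
    exact absurd hxi (Finset.notMem_empty x)
  obtain ⟨i0, hi0⟩ := hcov x0
  have hne : S.Nonempty := ⟨i0, hmem i0 x0 (SimpleGraph.Reachable.refl x0) hi0⟩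
  have h1 := S.min'_mem hne
  have h2 := S.max'_mem hne
  obtain ⟨-, u, hu, huj⟩ := Finset.mem_filter.1 h1
  obtain ⟨-, v, hv, hvk⟩ := Finset.mem_filter.1 h2
  obtain ⟨p, hp⟩ := (hu.symm.trans hv).exists_isPath
  refine ⟨u, v, p, hp, ?_, ?_⟩
  · intro y hy
    exact hu.trans ⟨p.takeUntil y hy⟩
  · intro i x hx hxi
    have hiS := hmem i x hx hxi
    exact spine_aux G B hadj hconv i u v p ⟨_, S.min'_le i hiS, huj⟩ ⟨_, S.le_max' i hiS, hvk⟩

end Pool.Agent.R795.Thue
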