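import Pool.Agent.R795.Thue.Layout
import Pool.Agent.R795.Thue.Spine
import Pool.Agent.R795.Thue.Acyclic

/-!
# The layout of a tree of path-width at most two and the choice of the coloring
-/

namespace Pool.Agent.R795.Thue

section idx

variable {V : Type} {G : SimpleGraph V} {u v : V}

open Classical in
/-- position of `x` on the walk `p` -/
noncomputable def idx (p : G.Walk u v) (x : V) : ℕ :=
  if h : ∃ n, p.getVert n = x ∧ n ≤ p.length then h.choose else 0

theorem idx_spec (p : G.Walk u v) {x : V} (hx : x ∈ p.support) :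
    p.getVert (idx p x) = x ∧ idx p x ≤ p.length := by
  have h : ∃ n, p.getVert n = x ∧ n ≤ p.length := SimpleGraph.Walk.mem_support_iff_exists_getVert.1 hx
  unfold idx
  rw [dif_pos h]
  exact h.choose_spec

end idx

theorem exists_layout {V : Type} [Fintype V] (G : SimpleGraph V) (hG : G.IsTree)
    (B : ℕ → Finset V) (N : ℕ) (hN : ∀ i, N ≤ i → B i = ∅) (hB : ∀ i, (B i).card ≤ 3)
    (hcov : ∀ v, ∃ i, v ∈ B i) (hedge : ∀ u v, G.Adj u v → ∃ i, u ∈ B i ∧ v ∈ B i)
    (hint : ∀ v i j k, i ≤ j → j ≤ k → v ∈ B i → v ∈ B k → v ∈ B j) :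
    ∃ κ : Type, Nonempty (Layout G κ) := by
  classical
  obtain ⟨x0⟩ := hG.1.nonempty
  obtain ⟨u, v, p, hp, -, hpB⟩ := spine V G B N hN hcov hedge hint x0
  have hpB' : ∀ i x, x ∈ B i → ∃ y ∈ p.support, y ∈ B i := fun i x hx =>
    hpB i x (hG.1.preconnected x0 x) hx
  let G1 : SimpleGraph V :=
    { Adj := fun a b => G.Adj a b ∧ a ∉ p.support ∧ b ∉ p.support
      symm := ⟨fun a b h => ⟨h.1.symm, h.2.2, h.2.1⟩⟩
      loopless := ⟨fun a h => G.loopless.irrefl a h.1⟩ }
  have hle : G1 ≤ G := fun a b h => h.1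
  have hac : G1.IsAcyclic := hG.2.anti hle
  have hch : ∀ K : G1.ConnectedComponent, ∃ x : V, G1.connectedComponentMk x = K :=
    fun K => K.exists_rep
  choose rep hrep using hch
  have hsp : ∀ K : G1.ConnectedComponent, ∃ (a b : V) (q : G1.Walk a b), q.IsPath ∧
      (∀ y ∈ q.support, G1.Reachable (rep K) y) ∧
      ∀ i x, G1.Reachable (rep K) x → x ∈ B i → ∃ y ∈ q.support, y ∈ B i := fun K =>
    spine V G1 B N hN hcov (fun a b h => hedge a b (hle h)) hint (rep K)
  choose qa qb q hq1 hq2 hq3 using hsp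
  let comp : V → G1.ConnectedComponent := fun x => G1.connectedComponentMk x
  have hreach : ∀ x, G1.Reachable (rep (comp x)) x := fun x =>
    SimpleGraph.ConnectedComponent.exact (hrep (comp x))
  let lev : V → ℕ := fun x => if x ∈ p.support then 0 else if x ∈ (q (comp x)).support then 1 else 2
  have lev0 : ∀ x, lev x = 0 ↔ x ∈ p.support := by
    intro x
    simp only [lev]
    split_ifs <;> simp_all
  have lev1 : ∀ x, lev x = 1 ↔ x ∉ p.support ∧ x ∈ (q (comp x)).support := by
    intro x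
    simp only [lev]
    split_ifs <;> simp_all
  have lev2 : ∀ x, lev x = 2 ↔ x ∉ p.support ∧ x ∉ (q (comp x)).support := by
    intro x
    simp only [lev]
    split_ifs <;> simp_all
  let pos : V → ℕ := fun x => if x ∈ p.support then idx p x else
    if x ∈ (q (comp x)).support then idx (q (comp x)) x else
    if h : ∃ y, G.Adj x y ∧ lev y = 1 then idx (q (comp x)) h.choose else 0
  have pos_0 : ∀ x, lev x = 0 → pos x = idx p x := by
    intro x hx
    simp only [pos]
    rw [if_pos ((lev0 x).1 hx)]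
  have pos_1 : ∀ x, lev x = 1 → pos x = idx (q (comp x)) x := by
    intro x hx
    simp only [pos]
    rw [if_neg ((lev1 x).1 hx).1, if_pos ((lev1 x).1 hx).2]
  let att : G1.ConnectedComponent → ℕ := fun K =>
    if h : ∃ s, s ∈ p.support ∧ ∃ y, y ∉ p.support ∧ comp y = K ∧ G.Adj y s then idx p h.choose
    else 0
  have adjK : ∀ x y, G.Adj x y → lev x ≠ 0 → lev y ≠ 0 → G1.Adj x y ∧ comp x = comp y := by
    intro x y h hx hy
    have h1 : G1.Adj x y := ⟨h, fun h' => hx ((lev0 x).2 h'), fun h' => hy ((lev0 y).2 h')⟩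
    exact ⟨h1, SimpleGraph.ConnectedComponent.sound h1.reachable⟩
  refine ⟨G1.ConnectedComponent, ⟨{
    lev := lev
    pos := pos
    comp := comp
    att := att
    len0 := p.length + 1
    len := fun K => (q K).length + 1
    lev_le := ?_
    pos0 := ?_
    inj0 := ?_
    pos1 := ?_
    inj1 := ?_
    adj00 := ?_
    adj01 := ?_
    adjK := fun x y h hx hy => (adjK x y h hx hy).2
    adj11 := ?_
    adj12 := ?_
    adj22 := ?_ }⟩⟩
  · intro x
    simp only [lev]
    split_ifs <;> omega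
  · intro x hx
    rw [pos_0 x hx]
    have := (idx_spec p ((lev0 x).1 hx)).2
    omega
  · intro x y hx hy h
    rw [pos_0 x hx, pos_0 y hy] at h
    rw [← (idx_spec p ((lev0 x).1 hx)).1, h, (idx_spec p ((lev0 y).1 hy)).1]
  · intro x hx
    rw [pos_1 x hx]
    have := (idx_spec (q (comp x)) ((lev1 x).1 hx).2).2
    omega
  · intro x y hx hy hc h
    rw [pos_1 x hx, pos_1 y hy] at h
    have hy' := ((lev1 y).1 hy).2
    rw [← hc] at hy' h
    rw [← (idx_spec _ ((lev1 x).1 hx).2).1, h, (idx_spec _ hy').1]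
  · intro x y h hx hy
    rw [pos_0 x hx, pos_0 y hy]
    have ix := idx_spec p ((lev0 x).1 hx)
    have iy := idx_spec p ((lev0 y).1 hy)
    exact consec V G hG.2 u v p hp _ _ ix.2 iy.2 (by rw [ix.1, iy.1]; exact h)
  · intro x y h hx hy
    rw [pos_0 x hx]
    have hy' : y ∉ p.support := fun h' => hy ((lev0 y).2 h')
    have hex : ∃ s, s ∈ p.support ∧ ∃ z, z ∉ p.support ∧ comp z = comp y ∧ G.Adj z s :=
      ⟨x, (lev0 x).1 hx, y, hy', rfl, h.symm⟩
    have hatt : att (comp y) = idx p hex.choose := by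
      simp only [att]
      rw [dif_pos hex]
    rw [hatt]
    obtain ⟨hs, z, hz, hzc, hadj⟩ := hex.choose_spec
    congr 1
    refine attach V G G1 hG.2 hle u v p (fun a b hab => hab.2.1) y z x hex.choose hy' hz
      ((lev0 x).1 hx) hs h.symm hadj ?_
    exact SimpleGraph.ConnectedComponent.exact hzc.symm
  · intro x y h hx hy
    obtain ⟨h1, hc⟩ := adjK x y h (by omega) (by omega)
    rw [pos_1 x hx, pos_1 y hy, ← hc]
    have hy' := ((lev1 y).1 hy).2
    rw [← hc] at hy'
    have ix := idx_spec _ ((lev1 x).1 hx).2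
    have iy := idx_spec _ hy'
    exact consec V G1 hac _ _ (q (comp x)) (hq1 _) _ _ ix.2 iy.2 (by rw [ix.1, iy.1]; exact h1)
  · intro x y h hx hy
    obtain ⟨h1, hc⟩ := adjK x y h (by omega) (by omega)
    have hy2 := (lev2 y).1 hy
    have hex : ∃ z, G.Adj y z ∧ lev z = 1 := ⟨x, h.symm, hx⟩
    have hpos : pos y = idx (q (comp y)) hex.choose := by
      simp only [pos]
      rw [if_neg hy2.1, if_neg hy2.2, dif_pos hex]
    obtain ⟨ha, hl⟩ := hex.choose_spec
    obtain ⟨h1', hc'⟩ := adjK y _ ha (by omega) (by rw [hl]; omega)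
    rw [hpos, pos_1 x hx, hc]
    congr 1
    have hx' := ((lev1 x).1 hx).2
    rw [hc] at hx'
    have hz' := ((lev1 _).1 hl).2
    rw [← hc'] at hz'
    exact attach V G1 ⊥ hac bot_le _ _ (q (comp y)) (fun a b hab => absurd hab (by simp)) y y x
      hex.choose hy2.2 hy2.2 hx' hz' h1.symm h1' (SimpleGraph.Reachable.refl y)
  · intro x y h hx hy
    obtain ⟨h1, hc⟩ := adjK x y h (by omega) (by omega)
    have hx2 := (lev2 x).1 hx
    have hy2 := (lev2 y).1 hy
    rw [← hc] at hy2
    obtain ⟨i, hxi, hyi⟩ := hedge x y h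
    obtain ⟨a, ha, hai⟩ := hpB' i x hxi
    obtain ⟨b, hb, hbi⟩ := hq3 (comp x) i x (hreach x) hxi
    have hbp : b ∉ p.support ∨ b = x := by
      -- `b` is reachable from `x` in `G1`
      have h2 : G1.Reachable x b := (hreach x).symm.trans (hq2 _ b hb)
      obtain ⟨w⟩ := h2.symm
      cases w with
      | nil => right; rfl
      | cons hadj _ => left; exact hadj.2.1
    have hbx : b ≠ x := fun h => hx2.2 (h ▸ hb)
    have hbp' : b ∉ p.support := hbp.resolve_right hbx
    have hby : b ≠ y := fun h => hy2.2 (h ▸ hb)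
    have hab : a ≠ b := fun h => hbp' (h ▸ ha)
    have hax : a ≠ x := fun h => hx2.1 (h ▸ ha)
    have hay : a ≠ y := fun h => hy2.1 (h ▸ ha)
    have hxy : x ≠ y := h.ne
    have hsub : ({a, b, x, y} : Finset V) ⊆ B i := by
      intro z hz
      simp only [Finset.mem_insert, Finset.mem_singleton] at hz
      rcases hz with rfl | rfl | rfl | rfl
      · exact hai
      · exact hbi
      · exact hxi
      · exact hyi
    have hcard := Finset.card_le_card hsub
    rw [Finset.card_insert_of_notMem (by simp [hab, hax, hay]),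
      Finset.card_insert_of_notMem (by simp [hbx, hby]),
      Finset.card_insert_of_notMem (by simp [hxy]), Finset.card_singleton] at hcard
    have := hB i
    omega

theorem exists_col (words : stmWords) {V : Type} {G : SimpleGraph V} {κ : Type}
    (Λ : Layout G κ) (L : V → Finset ℕ) (hL : ∀ v, 180 ≤ (L v).card) :
    ∃ (f : V → ℕ) (w : ℕ → ℕ) (u : κ → ℕ → ℕ), (∀ v, f v ∈ L v) ∧ Col Λ f w u := by
  classical
  let L0 : ℕ → Finset ℕ := fun r =>
    if h : ∃ x, Λ.lev x = 0 ∧ Λ.pos x = r then L h.choose else Finset.range 160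
  have hL0 : ∀ r, 160 ≤ (L0 r).card := by
    intro r
    simp only [L0]
    split_ifs with h
    · exact le_trans (by norm_num) (hL _)
    · simp
  have hL0' : ∀ x, Λ.lev x = 0 → L0 (Λ.pos x) = L x := by
    intro x hx
    have h : ∃ y, Λ.lev y = 0 ∧ Λ.pos y = Λ.pos x := ⟨x, hx, rfl⟩
    simp only [L0]
    rw [dif_pos h, Λ.inj0 _ x h.choose_spec.1 hx h.choose_spec.2]
  obtain ⟨w, hw1, hw2, -⟩ := words Λ.len0 L0 hL0 (fun _ => 0) 0
  let L1 : κ → ℕ → Finset ℕ := fun k r =>
    if h : ∃ x, Λ.lev x = 1 ∧ Λ.comp x = k ∧ Λ.pos x = r then L h.choose else Finset.range 160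
  have hL1 : ∀ k r, 160 ≤ (L1 k r).card := by
    intro k r
    simp only [L1]
    split_ifs with h
    · exact le_trans (by norm_num) (hL _)
    · simp
  have hL1' : ∀ x, Λ.lev x = 1 → L1 (Λ.comp x) (Λ.pos x) = L x := by
    intro x hx
    have h : ∃ y, Λ.lev y = 1 ∧ Λ.comp y = Λ.comp x ∧ Λ.pos y = Λ.pos x := ⟨x, hx, rfl, rfl⟩
    simp only [L1]
    rw [dif_pos h, Λ.inj1 _ x h.choose_spec.1 hx h.choose_spec.2.1 h.choose_spec.2.2]
  have hu : ∀ k, ∃ u : ℕ → ℕ, (∀ r < Λ.len k, u r ∈ L1 k r) ∧ Strong (Λ.len k) u ∧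
      Avoid (Λ.len k) u w (Λ.att k) := fun k => words (Λ.len k) (L1 k) (hL1 k) w (Λ.att k)
  choose u hu1 hu2 hu3 using hu
  have h2 : ∀ x : V, ∃ a ∈ L x, a ≠ u (Λ.comp x) (Λ.pos x) ∧ a ≠ u (Λ.comp x) (Λ.pos x + 1) ∧
      a ≠ u (Λ.comp x) (Λ.pos x - 1) ∧
      ∀ d, Λ.att (Λ.comp x) ≤ d + 8 → d ≤ Λ.att (Λ.comp x) + 8 → a ≠ w d := by
    intro x
    let F : Finset ℕ := ({u (Λ.comp x) (Λ.pos x), u (Λ.comp x) (Λ.pos x + 1),
      u (Λ.comp x) (Λ.pos x - 1)} : Finset ℕ) ∪
      (Finset.range 17).image (fun e => w (Λ.att (Λ.comp x) + e - 8))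
    have hF : F.card ≤ 20 := by
      refine (Finset.card_union_le _ _).trans ?_
      have h3 : ({u (Λ.comp x) (Λ.pos x), u (Λ.comp x) (Λ.pos x + 1),
        u (Λ.comp x) (Λ.pos x - 1)} : Finset ℕ).card ≤ 3 := Finset.card_le_three
      have h4 : ((Finset.range 17).image (fun e => w (Λ.att (Λ.comp x) + e - 8))).card ≤ 17 := by
        refine Finset.card_image_le.trans ?_
        simp
      omega
    have : (L x \ F).Nonempty := by
      rw [← Finset.card_pos]
      have := Finset.le_card_sdiff F (L x)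
      have := hL x
      omega
    obtain ⟨a, ha⟩ := this
    rw [Finset.mem_sdiff] at ha
    refine ⟨a, ha.1, ?_, ?_, ?_, ?_⟩
    · rintro rfl; exact ha.2 (by simp [F])
    · rintro rfl; exact ha.2 (by simp [F])
    · rintro rfl; exact ha.2 (by simp [F])
    · rintro d h5 h6 rfl
      apply ha.2
      simp only [F, Finset.mem_union, Finset.mem_image, Finset.mem_range]
      right
      exact ⟨d + 8 - Λ.att (Λ.comp x), by omega, by congr 1; omega⟩
  choose g hg1 hg2 hg3 hg4 hg5 using h2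
  refine ⟨fun x => if Λ.lev x = 0 then w (Λ.pos x) else
    if Λ.lev x = 1 then u (Λ.comp x) (Λ.pos x) else g x, w, u, ?_, ?_⟩
  · intro x
    beta_reduce
    split_ifs with h h'
    · rw [← hL0' x h]
      exact hw1 _ (Λ.pos0 x h)
    · rw [← hL1' x h']
      exact hu1 _ _ (Λ.pos1 x h')
    · exact hg1 x
  · refine ⟨hw2, hu2, hu3, ?_, ?_, ?_, ?_⟩
    · intro x hx
      simp [hx]
    · intro x hx
      simp [hx]
    · intro x hx
      simp only [hx]
      exact ⟨hg2 x, hg3 x, hg4 x⟩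
    · intro x hx
      simp only [hx]
      exact hg5 x

/-- Q2 of MP_924390_co, from the word lemma. -/
theorem main (words : stmWords) :
    ∀ (V : Type) [Fintype V] (G : SimpleGraph V), G.IsTree →
      (∃ B : ℕ → Finset V,
        (∀ i, (B i).card ≤ 3) ∧
        (∀ v : V, ∃ i, v ∈ B i) ∧
        (∀ u v : V, G.Adj u v → ∃ i, u ∈ B i ∧ v ∈ B i) ∧
        (∀ (v : V) (i j k : ℕ), i ≤ j → j ≤ k → v ∈ B i → v ∈ B k → v ∈ B j)) →
      ∀ L : V → Finset ℕ, (∀ v, 180 ≤ (L v).card) →
        ∃ f : V → ℕ, (∀ v, f v ∈ L v) ∧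
          ∀ (u w : V) (p : G.Walk u w), p.IsPath →
            ∀ k : ℕ, 1 ≤ k → p.length + 1 = 2 * k →
              ¬ (∀ i : ℕ, i < k → f (p.getVert i) = f (p.getVert (i + k))) := by
  classical
  intro V _ G hG ⟨B, hB, hcov, hedge, hint⟩ L hL
  choose iv hiv using hcov
  have hedge' : ∀ u v : V, ∃ i, G.Adj u v → u ∈ B i ∧ v ∈ B i := by
    intro u v
    by_cases h : G.Adj u v
    · obtain ⟨i, hi⟩ := hedge u v h
      exact ⟨i, fun _ => hi⟩
    · exact ⟨0, fun h' => absurd h' h⟩
  choose ie hie using hedge'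
  let N : ℕ := (Finset.univ.sup iv) + (Finset.univ.sup fun z : V × V => ie z.1 z.2) + 1
  have hNv : ∀ v, iv v < N := fun v => by
    have := Finset.le_sup (f := iv) (Finset.mem_univ v)
    simp only [N]
    omega
  have hNe : ∀ a b, ie a b < N := fun a b => by
    have := Finset.le_sup (f := fun z : V × V => ie z.1 z.2) (Finset.mem_univ (a, b))
    simp only [N]
    simp only at this
    omega
  let B' : ℕ → Finset V := fun i => if i < N then B i else ∅
  have hB' : ∀ i, i < N → B' i = B i := fun i hi => by simp only [B']; rw [if_pos hi]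
  have hB'' : ∀ i, N ≤ i → B' i = ∅ := fun i hi => by
    simp only [B']; rw [if_neg (by omega)]
  have hmem : ∀ i x, x ∈ B' i → i < N ∧ x ∈ B i := by
    intro i x hx
    rcases Nat.lt_or_ge i N with h | h
    · exact ⟨h, by rwa [hB' i h] at hx⟩
    · rw [hB'' i h] at hx
      simp at hx
  obtain ⟨κ, ⟨Λ⟩⟩ := exists_layout G hG B' N hB''
    (fun i => by
      rcases Nat.lt_or_ge i N with h | h
      · rw [hB' i h]; exact hB i
      · rw [hB'' i h]; simp)
    (fun v => ⟨iv v, by rw [hB' _ (hNv v)]; exact hiv v⟩)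
    (fun a b hab => ⟨ie a b, by rw [hB' _ (hNe a b)]; exact hie a b hab⟩)
    (fun v i j k hij hjk hi hk => by
      obtain ⟨h1, h2⟩ := hmem _ _ hi
      obtain ⟨h3, h4⟩ := hmem _ _ hk
      rw [hB' j (by omega)]
      exact hint v i j k hij hjk h2 h4)
  obtain ⟨f, w, u, hf, hC⟩ := exists_col words Λ L hL
  refine ⟨f, hf, ?_⟩
  intro a b p hp k hk hlen hrep
  refine nonrep hC hk (x := p.getVert) ⟨?_, ?_⟩ hrep
  · intro r hr
    exact p.adj_getVert_succ (by omega)
  · intro r s hr hs h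
    exact hp.getVert_injOn (by simp only [Set.mem_ofPred_eq]; omega)
      (by simp only [Set.mem_ofPred_eq]; omega) h

end Pool.Agent.R795.Thue
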