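import Mathlib

/-!
# MP_924390_co, Q2: every tree of path-width at most 2 is nonrepetitively c-choosable

Statements of the independent pieces (project TH).

Paper proof.  Take a path `P = v_0 … v_n` of the tree `T` which meets every nonempty bag; the bags of
`T - P` have size at most 2; in every component `K` of `T - P` take a path `S_K` meeting all bags of
`K`; the remaining vertices are pairwise non-adjacent.  Colour `P` by a word which has no block of
`a` letters repeated at distance `t < 4a` (`Strong`), colour `S_K` by such a word which in addition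
avoids every `m`-letter segment of the word of `P` near the attaching vertex (`Avoid`), and colour
the remaining vertices greedily, avoiding the colours of the neighbour on `S_K` and of the two
vertices next to it, and those of the vertices of `P` near the attaching vertex.
-/

namespace Pool.Agent.R795.Thue

/-- the word `w` on `[0,n)` has no block of `a` letters repeated at distance `t < 4a` -/
def Strong (n : ℕ) (w : ℕ → ℕ) : Prop :=
  ∀ a t b : ℕ, 1 ≤ a → 1 ≤ t → t < 4 * a → b + t + a ≤ n →
    ¬ ∀ r < a, w (b + r) = w (b + t + r)

/-- no `m`-letter segment of `u` on `[0,n)` equals, forwards or backwards, an `m`-letter segment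
of `w` inside `[i - 8m, i + 8m]` -/
def Avoid (n : ℕ) (u w : ℕ → ℕ) (i : ℕ) : Prop :=
  ∀ m a b : ℕ, 1 ≤ m → b + m ≤ n → i ≤ a + 8 * m → a + m ≤ i + 8 * m + 1 →
    (¬ ∀ r < m, u (b + r) = w (a + r)) ∧ (¬ ∀ r < m, u (b + r) = w (a + (m - 1 - r)))

/-- TH-W (word lemma, Rosenfeld counting).  Let `W_j` be the set of valid words of length `j` (letters
in the lists, `Strong` and `Avoid` on `[0,j)`); claim `2 |W_j| ≤ |W_(j+1)|`: there are at least
`160 |W_j|` extensions; a bad one has, for some `m ≥ 1`, its last `m` letters determined by its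
prefix of length `j+1-m` (which lies in `W_(j+1-m)`, of size at most `2^(1-m) |W_j|`) and by one of
at most `4m + 34m` data (the distance `t < 4m`; or the start of the segment of `w` and its
direction), and `∑ 38 m 2^(1-m) = 152`. -/
def stmWords : Prop := ∀ (n : ℕ) (L : ℕ → Finset ℕ), (∀ j, 160 ≤ (L j).card) →
  ∀ (w : ℕ → ℕ) (i : ℕ), ∃ u : ℕ → ℕ, (∀ r < n, u r ∈ L r) ∧ Strong n u ∧ Avoid n u w i

/-- TH-C: in an acyclic graph adjacent vertices of a path are consecutive on it.  (All edges are
bridges; walk along the path.) -/
def stmConsec : Prop := ∀ (V : Type) (G : SimpleGraph V), G.IsAcyclic →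
  ∀ (u v : V) (p : G.Walk u v), p.IsPath → ∀ a b : ℕ, a ≤ p.length → b ≤ p.length →
    G.Adj (p.getVert a) (p.getVert b) → a = b + 1 ∨ b = a + 1

/-- TH-A: in an acyclic graph `G` a part which is connected off the support of a walk `p` is
attached to at most one vertex of `p` (`H` is a subgraph without edges at the vertices of `p`).
(The edge `x s` is a bridge, but `x - x' - s' - s` avoids it if `s ≠ s'`.) -/
def stmAttach : Prop := ∀ (V : Type) (G H : SimpleGraph V), G.IsAcyclic → H ≤ G →
  ∀ (u v : V) (p : G.Walk u v), (∀ x y, H.Adj x y → x ∉ p.support) →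
    ∀ x x' s s' : V, x ∉ p.support → x' ∉ p.support → s ∈ p.support → s' ∈ p.support →
      G.Adj x s → G.Adj x' s' → H.Reachable x x' → s = s'

/-- TH-S: a component of a finite graph with a path-decomposition contains a path meeting all the
bags which the component meets.  (From a vertex of the component with smallest first bag to one
with largest last bag; a walk from a vertex in a bag of index `≤ i` to a vertex in a bag of index
`≥ i` meets the bag `B i`.) -/
def stmSpine : Prop := ∀ (V : Type) [Fintype V] (G : SimpleGraph V) (B : ℕ → Finset V) (N : ℕ),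
  (∀ i, N ≤ i → B i = ∅) → (∀ v, ∃ i, v ∈ B i) →
  (∀ u v, G.Adj u v → ∃ i, u ∈ B i ∧ v ∈ B i) →
  (∀ v i j k, i ≤ j → j ≤ k → v ∈ B i → v ∈ B k → v ∈ B j) →
  ∀ x0 : V, ∃ (u v : V) (p : G.Walk u v), p.IsPath ∧ (∀ y ∈ p.support, G.Reachable x0 y) ∧
    ∀ i x, G.Reachable x0 x → x ∈ B i → ∃ y ∈ p.support, y ∈ B i

end Pool.Agent.R795.Thue
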