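import Pool.Agent.R795.Thue.Defs

/-!
# Layouts of trees of path-width two and the nonrepetitiveness of the coloring
-/

namespace Pool.Agent.R795.Thue

/-- level `0`: the main path; level `1`: the paths `S_K`; level `2`: the other vertices -/
structure Layout {V : Type} (G : SimpleGraph V) (κ : Type) where
  lev : V → ℕ
  pos : V → ℕ
  comp : V → κ
  att : κ → ℕ
  len0 : ℕ
  len : κ → ℕ
  lev_le : ∀ x, lev x ≤ 2
  pos0 : ∀ x, lev x = 0 → pos x < len0
  inj0 : ∀ x y, lev x = 0 → lev y = 0 → pos x = pos y → x = y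
  pos1 : ∀ x, lev x = 1 → pos x < len (comp x)
  inj1 : ∀ x y, lev x = 1 → lev y = 1 → comp x = comp y → pos x = pos y → x = y
  adj00 : ∀ x y, G.Adj x y → lev x = 0 → lev y = 0 → pos x = pos y + 1 ∨ pos y = pos x + 1
  adj01 : ∀ x y, G.Adj x y → lev x = 0 → lev y ≠ 0 → pos x = att (comp y)
  adjK : ∀ x y, G.Adj x y → lev x ≠ 0 → lev y ≠ 0 → comp x = comp y
  adj11 : ∀ x y, G.Adj x y → lev x = 1 → lev y = 1 → pos x = pos y + 1 ∨ pos y = pos x + 1
  adj12 : ∀ x y, G.Adj x y → lev x = 1 → lev y = 2 → pos x = pos y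
  adj22 : ∀ x y, G.Adj x y → lev x = 2 → lev y = 2 → False

/-- the coloring conditions -/
structure Col {V : Type} {G : SimpleGraph V} {κ : Type} (Λ : Layout G κ) (f : V → ℕ)
    (w : ℕ → ℕ) (u : κ → ℕ → ℕ) : Prop where
  s0 : Strong Λ.len0 w
  s1 : ∀ k, Strong (Λ.len k) (u k)
  av : ∀ k, Avoid (Λ.len k) (u k) w (Λ.att k)
  f0 : ∀ x, Λ.lev x = 0 → f x = w (Λ.pos x)
  f1 : ∀ x, Λ.lev x = 1 → f x = u (Λ.comp x) (Λ.pos x)
  f2 : ∀ x, Λ.lev x = 2 → f x ≠ u (Λ.comp x) (Λ.pos x) ∧
    f x ≠ u (Λ.comp x) (Λ.pos x + 1) ∧ f x ≠ u (Λ.comp x) (Λ.pos x - 1)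
  f3 : ∀ x, Λ.lev x = 2 → ∀ d, Λ.att (Λ.comp x) ≤ d + 8 → d ≤ Λ.att (Λ.comp x) + 8 → f x ≠ w d

/-- the sequence `x 0, …, x (n-1)` is a path -/
def IsSeq {V : Type} (G : SimpleGraph V) (n : ℕ) (x : ℕ → V) : Prop :=
  (∀ r, r + 1 < n → G.Adj (x r) (x (r + 1))) ∧ ∀ r s, r < n → s < n → x r = x s → r = s

/-- `g` runs through consecutive integers, upwards or downwards -/
def Mono (m : ℕ) (g : ℕ → ℕ) : Prop := (∀ r < m, g r = g 0 + r) ∨ (∀ r < m, g r + r = g 0)

theorem mono_of (g : ℕ → ℕ) : ∀ m : ℕ,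
    (∀ r, r + 1 < m → g r = g (r + 1) + 1 ∨ g (r + 1) = g r + 1) →
    (∀ r s, r < m → s < m → g r = g s → r = s) → Mono m g := by
  intro m
  induction m with
  | zero => intro _ _; left; intro r hr; omega
  | succ m ih =>
    intro h1 h2
    have ih' := ih (fun r hr => h1 r (by omega)) (fun r s hr hs => h2 r s (by omega) (by omega))
    rcases Nat.lt_or_ge m 1 with hm | hm
    · left; intro r hr; obtain rfl : r = 0 := by omega
      rfl
    rcases Nat.lt_or_ge m 2 with hm2 | hm2
    · obtain rfl : m = 1 := by omega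
      have h01 : g 0 = g 1 + 1 ∨ g 1 = g 0 + 1 := h1 0 (by omega)
      rcases h01 with h | h
      · right; intro r hr
        rcases Nat.lt_or_ge r 1 with h' | h'
        · obtain rfl : r = 0 := by omega
          rfl
        · obtain rfl : r = 1 := by omega
          omega
      · left; intro r hr
        rcases Nat.lt_or_ge r 1 with h' | h'
        · obtain rfl : r = 0 := by omega
          rfl
        · obtain rfl : r = 1 := by omega
          omega
    · obtain ⟨q, rfl⟩ : ∃ q, m = q + 2 := ⟨m - 2, by omega⟩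
      have h3 := h1 (q + 1) (by omega)
      have h4 : g (q + 1 + 1) ≠ g q := fun h => by
        have := h2 _ _ (by omega) (by omega) h
        omega
      rcases ih' with h | h
      · left
        intro r hr
        rcases Nat.lt_or_ge r (q + 2) with h' | h'
        · exact h r h'
        · obtain rfl : r = q + 2 := by omega
          have h5 := h q (by omega)
          have h6 := h (q + 1) (by omega)
          have h7 : g (q + 2) = g (q + 1 + 1) := rfl
          omega
      · right
        intro r hr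
        rcases Nat.lt_or_ge r (q + 2) with h' | h'
        · exact h r h'
        · obtain rfl : r = q + 2 := by omega
          have h5 := h q (by omega)
          have h6 := h (q + 1) (by omega)
          have h7 : g (q + 2) = g (q + 1 + 1) := rfl
          omega

theorem strong_block {N : ℕ} {ω : ℕ → ℕ} (h : Strong N ω) (g : ℕ → ℕ) (a t : ℕ) (ha : 1 ≤ a)
    (ht : 1 ≤ t) (hta : t < 4 * a) (hg : Mono (t + a) g) (hN : ∀ r < t + a, g r < N)
    (heq : ∀ r < a, ω (g r) = ω (g (r + t))) : False := by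
  rcases hg with hg | hg
  · refine h a t (g 0) ha ht hta ?_ ?_
    · have h1 := hN (t + a - 1) (by omega)
      have h2 := hg (t + a - 1) (by omega)
      omega
    · intro r hr
      have h1 := heq r hr
      rw [hg r (by omega), hg (r + t) (by omega)] at h1
      rw [h1]
      congr 1
      omega
  · have hb := hg (t + a - 1) (by omega)
    refine h a t (g (t + a - 1)) ha ht hta ?_ ?_
    · have h1 := hN 0 (by omega)
      omega
    · intro r hr
      have h1 := heq (a - 1 - r) (by omega)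
      have h2 := hg (a - 1 - r) (by omega)
      have h3 := hg (a - 1 - r + t) (by omega)
      have h4 : g (t + a - 1) + r = g (a - 1 - r + t) := by omega
      have h5 : g (t + a - 1) + t + r = g (a - 1 - r) := by omega
      rw [h4, h5, h1]

theorem avoid_block {N i : ℕ} {ω w : ℕ → ℕ} (h : Avoid N ω w i) (g g' : ℕ → ℕ) (m : ℕ)
    (hm : 1 ≤ m) (hg : Mono m g) (hg' : Mono m g') (hN : ∀ r < m, g r < N)
    (hi : ∀ r < m, i ≤ g' r + 8 * m ∧ g' r ≤ i + 8 * m)
    (heq : ∀ r < m, ω (g r) = w (g' r)) : False := by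
  have i0 := hi 0 (by omega)
  have i1 := hi (m - 1) (by omega)
  have n0 := hN 0 (by omega)
  have n1 := hN (m - 1) (by omega)
  rcases hg with hg | hg <;> rcases hg' with hg' | hg'
  · have e1 := hg (m - 1) (by omega)
    have e2 := hg' (m - 1) (by omega)
    refine (h m (g' 0) (g 0) hm (by omega) (by omega) (by omega)).1 ?_
    intro r hr
    rw [← hg r hr, ← hg' r hr, heq r hr]
  · have e1 := hg (m - 1) (by omega)
    have e2 := hg' (m - 1) (by omega)
    refine (h m (g' (m - 1)) (g 0) hm (by omega) (by omega) (by omega)).2 ?_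
    intro r hr
    have e3 := hg' r hr
    have e4 : g' (m - 1) + (m - 1 - r) = g' r := by omega
    rw [e4, ← hg r hr, heq r hr]
  · have e1 := hg (m - 1) (by omega)
    have e2 := hg' (m - 1) (by omega)
    refine (h m (g' 0) (g (m - 1)) hm (by omega) (by omega) (by omega)).2 ?_
    intro r hr
    have e3 := hg (m - 1 - r) (by omega)
    have e5 := hg' (m - 1 - r) (by omega)
    have e4 : g (m - 1) + r = g (m - 1 - r) := by omega
    rw [e4, ← e5, heq _ (by omega)]
  · have e1 := hg (m - 1) (by omega)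
    have e2 := hg' (m - 1) (by omega)
    refine (h m (g' (m - 1)) (g (m - 1)) hm (by omega) (by omega) (by omega)).1 ?_
    intro r hr
    have e3 := hg (m - 1 - r) (by omega)
    have e5 := hg' (m - 1 - r) (by omega)
    have e4 : g (m - 1) + r = g (m - 1 - r) := by omega
    have e6 : g' (m - 1) + r = g' (m - 1 - r) := by omega
    rw [e4, e6, heq _ (by omega)]

section

variable {V : Type} {G : SimpleGraph V} {κ : Type} {Λ : Layout G κ} {f : V → ℕ}
  {w : ℕ → ℕ} {u : κ → ℕ → ℕ} {n : ℕ} {x : ℕ → V}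

theorem block0 (hx : IsSeq G n x) {A m : ℕ} (hA : A + m ≤ n)
    (h0 : ∀ r < m, Λ.lev (x (A + r)) = 0) : Mono m (fun r => Λ.pos (x (A + r))) := by
  apply mono_of
  · intro r hr
    exact Λ.adj00 _ _ (hx.1 (A + r) (by omega)) (h0 r (by omega)) (h0 (r + 1) hr)
  · intro r s hr hs h
    have := hx.2 _ _ (by omega) (by omega) (Λ.inj0 _ _ (h0 r hr) (h0 s hs) h)
    omega

theorem block1 (hx : IsSeq G n x) {A m : ℕ} (hA : A + m ≤ n) {K : κ}
    (h1 : ∀ r < m, Λ.lev (x (A + r)) = 1) (hK : ∀ r < m, Λ.comp (x (A + r)) = K) :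
    Mono m (fun r => Λ.pos (x (A + r))) := by
  apply mono_of
  · intro r hr
    exact Λ.adj11 _ _ (hx.1 (A + r) (by omega)) (h1 r (by omega)) (h1 (r + 1) hr)
  · intro r s hr hs h
    have := hx.2 _ _ (by omega) (by omega) (Λ.inj1 _ _ (h1 r hr) (h1 s hs)
      ((hK r hr).trans (hK s hs).symm) h)
    omega

theorem rep0 (C : Col Λ f w u) (hx : IsSeq G n x) {A a t : ℕ} (hA : A + (t + a) ≤ n)
    (ha : 1 ≤ a) (ht : 1 ≤ t) (hta : t < 4 * a)
    (h0 : ∀ r < t + a, Λ.lev (x (A + r)) = 0)
    (heq : ∀ r < a, f (x (A + r)) = f (x (A + (r + t)))) : False := by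
  refine strong_block C.s0 (fun r => Λ.pos (x (A + r))) a t ha ht hta (block0 hx hA h0)
    (fun r hr => Λ.pos0 _ (h0 r hr)) ?_
  intro r hr
  have := heq r hr
  rwa [C.f0 _ (h0 r (by omega)), C.f0 _ (h0 (r + t) (by omega))] at this

theorem rep1 (C : Col Λ f w u) (hx : IsSeq G n x) {A a t : ℕ} (hA : A + (t + a) ≤ n)
    (ha : 1 ≤ a) (ht : 1 ≤ t) (hta : t < 4 * a) {K : κ}
    (h1 : ∀ r < t + a, Λ.lev (x (A + r)) = 1) (hK : ∀ r < t + a, Λ.comp (x (A + r)) = K)
    (heq : ∀ r < a, f (x (A + r)) = f (x (A + (r + t)))) : False := by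
  refine strong_block (C.s1 K) (fun r => Λ.pos (x (A + r))) a t ha ht hta (block1 hx hA h1 hK)
    (fun r hr => ?_) ?_
  · rw [← hK r hr]
    exact Λ.pos1 _ (h1 r hr)
  intro r hr
  have := heq r hr
  rwa [C.f1 _ (h1 r (by omega)), C.f1 _ (h1 (r + t) (by omega)), hK r (by omega),
    hK (r + t) (by omega)] at this

theorem avoid_path (C : Col Λ f w u) (hx : IsSeq G n x) {A D m : ℕ} (hA : A + m ≤ n)
    (hD : D + m ≤ n) (hm : 1 ≤ m) {K : κ}
    (h1 : ∀ r < m, Λ.lev (x (A + r)) = 1) (hK : ∀ r < m, Λ.comp (x (A + r)) = K)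
    (h0 : ∀ r < m, Λ.lev (x (D + r)) = 0)
    (hi : ∀ r < m, Λ.att K ≤ Λ.pos (x (D + r)) + 8 * m ∧ Λ.pos (x (D + r)) ≤ Λ.att K + 8 * m)
    (heq : ∀ r < m, f (x (A + r)) = f (x (D + r))) : False := by
  refine avoid_block (C.av K) (fun r => Λ.pos (x (A + r))) (fun r => Λ.pos (x (D + r))) m hm
    (block1 hx hA h1 hK) (block0 hx hD h0) (fun r hr => ?_) hi ?_
  · rw [← hK r hr]
    exact Λ.pos1 _ (h1 r hr)
  intro r hr
  have := heq r hr
  rwa [C.f1 _ (h1 r (by omega)), C.f0 _ (h0 r (by omega)), hK r (by omega)] at this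

/-- no vertex off the main path has the color of a vertex of the main path near its attachment -/
theorem near (C : Col Λ f w u) {y z : V} (hy : Λ.lev y ≠ 0) (hz : Λ.lev z = 0)
    (h1 : Λ.att (Λ.comp y) ≤ Λ.pos z + 8) (h2 : Λ.pos z ≤ Λ.att (Λ.comp y) + 8) :
    f y ≠ f z := by
  rw [C.f0 z hz]
  have h3 := Λ.lev_le y
  rcases (by omega : Λ.lev y = 1 ∨ Λ.lev y = 2) with h | h
  · intro h4
    rw [C.f1 y h] at h4
    refine (C.av (Λ.comp y) 1 (Λ.pos z) (Λ.pos y) le_rfl ?_ (by omega) (by omega)).1 ?_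
    · have := Λ.pos1 y h
      omega
    · intro r hr
      obtain rfl : r = 0 := by omega
      exact h4
  · exact C.f3 y h _ h1 h2

theorem noreturn (hx : IsSeq G n x) {a : ℕ} (ha : Λ.lev (x a) = 0) (ha' : Λ.lev (x (a + 1)) ≠ 0) :
    ∀ c, a + 1 ≤ c → c < n → Λ.lev (x c) ≠ 0 ∧ Λ.comp (x c) = Λ.comp (x (a + 1)) := by
  intro c hc
  induction c, hc using Nat.le_induction with
  | base => intro _; exact ⟨ha', rfl⟩
  | succ c hc ih =>
    intro hcn
    obtain ⟨h1, h2⟩ := ih (by omega)
    have h3 : Λ.lev (x (c + 1)) ≠ 0 := by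
      intro h3
      have h4 := Λ.adj01 _ _ (hx.1 c hcn).symm h3 h1
      have h5 := Λ.adj01 _ _ (hx.1 a (by omega)) ha ha'
      have h6 := Λ.inj0 _ _ h3 ha (by rw [h4, h5, h2])
      have := hx.2 _ _ (by omega) (by omega) h6
      omega
    exact ⟨h3, (Λ.adjK _ _ (hx.1 c hcn) h1 h3).symm.trans h2⟩

theorem interior (hx : IsSeq G n x) {r : ℕ} (hr : r + 2 < n) (h0 : Λ.lev (x r) ≠ 0)
    (h1 : Λ.lev (x (r + 1)) ≠ 0) (h2 : Λ.lev (x (r + 2)) ≠ 0) : Λ.lev (x (r + 1)) = 1 := by
  by_contra hne
  have l0 := Λ.lev_le (x r)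
  have l1 := Λ.lev_le (x (r + 1))
  have l2 := Λ.lev_le (x (r + 2))
  have e1 : Λ.lev (x (r + 1)) = 2 := by omega
  have a0 := hx.1 r (by omega)
  have a1 := hx.1 (r + 1) (by omega)
  have e0 : Λ.lev (x r) = 1 := by
    rcases (by omega : Λ.lev (x r) = 1 ∨ Λ.lev (x r) = 2) with h | h
    · exact h
    · exact absurd (Λ.adj22 _ _ a0 h e1) id
  have e2 : Λ.lev (x (r + 2)) = 1 := by
    rcases (by omega : Λ.lev (x (r + 2)) = 1 ∨ Λ.lev (x (r + 2)) = 2) with h | h
    · exact h
    · exact absurd (Λ.adj22 _ _ a1 e1 h) id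
  have p0 := Λ.adj12 _ _ a0 e0 e1
  have p2 := Λ.adj12 _ _ a1.symm e2 e1
  have k0 := Λ.adjK _ _ a0 h0 h1
  have k2 := Λ.adjK _ _ a1 h1 h2
  have := hx.2 _ _ (by omega) (by omega) (Λ.inj1 _ _ e0 e2 (k0.trans k2) (p0.trans p2.symm))
  omega

theorem compconst (hx : IsSeq G n x) {k : ℕ} (hk : k ≤ n) (hl : ∀ r < k, Λ.lev (x r) ≠ 0) :
    ∀ r < k, Λ.comp (x r) = Λ.comp (x 0) := by
  intro r
  induction r with
  | zero => intro _; rfl
  | succ r ih =>
    intro hr
    rw [← ih (by omega)]
    exact (Λ.adjK _ _ (hx.1 r (by omega)) (hl r (by omega)) (hl (r + 1) hr)).symm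

theorem struct (Λ : Layout G κ) (hx : IsSeq G n x) : ∃ k M, k + M ≤ n ∧
    (∀ r < k, Λ.lev (x r) ≠ 0) ∧ (∀ r, k ≤ r → r < k + M → Λ.lev (x r) = 0) ∧
    (∀ r, k + M ≤ r → r < n → Λ.lev (x r) ≠ 0) ∧ (M = 0 → k = n) := by
  classical
  by_cases h : ∃ r, r < n ∧ Λ.lev (x r) = 0
  · set k := Nat.find h with hk
    have hk1 := Nat.find_spec h
    have hk2 : ∀ r < k, Λ.lev (x r) ≠ 0 := fun r hr h0 =>
      Nat.find_min h hr ⟨by have := hk1.1; omega, h0⟩
    have hex : ∃ e, k ≤ e ∧ (e = n ∨ Λ.lev (x e) ≠ 0) := ⟨n, hk1.1.le, Or.inl rfl⟩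
    set e := Nat.find hex with he
    have he1 := Nat.find_spec hex
    have he2 : ∀ r, k ≤ r → r < e → r ≠ n ∧ Λ.lev (x r) = 0 := by
      intro r hr hre
      have := Nat.find_min hex hre
      push Not at this
      exact this hr
    have hke : k < e := by
      rcases Nat.lt_or_ge k e with h' | h'
      · exact h'
      · have h3 : e = k := le_antisymm h' he1.1
        rcases he1.2 with h4 | h4
        · rw [← he, h3] at h4
          have := hk1.1
          omega
        · rw [← he, h3] at h4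
          exact absurd hk1.2 h4
    have hen : e ≤ n := by
      by_contra hcon
      exact (he2 n hk1.1.le (by omega)).1 rfl
    refine ⟨k, e - k, by omega, hk2, fun r h1 h2 => (he2 r h1 (by omega)).2, ?_, by omega⟩
    intro r h1 h2
    have h3 : Λ.lev (x e) ≠ 0 := by
      rcases he1.2 with h4 | h4
      · rw [← he] at h4; omega
      · exact h4
    obtain ⟨q, hq⟩ : ∃ q, e = q + 1 := ⟨e - 1, by omega⟩
    have h4 := (he2 q (by omega) (by omega)).2
    rw [hq] at h3
    exact (noreturn hx h4 h3 r (by omega) h2).1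
  · push Not at h
    exact ⟨n, 0, by omega, fun r hr => h r hr, fun r h1 h2 => by omega,
      fun r h1 h2 => by omega, fun _ => rfl⟩

theorem left_lemma (C : Col Λ f w u) {t : ℕ} (hx : IsSeq G (2 * t) x)
    (hc : ∀ r < t, f (x r) = f (x (r + t))) {k M m : ℕ} (hk : k + M ≤ 2 * t)
    (hl : ∀ r < k, Λ.lev (x r) ≠ 0) (h0 : ∀ r, k ≤ r → r < k + M → Λ.lev (x r) = 0)
    (hm1 : 1 ≤ m) (hm2 : m ≤ k) (hkt : k ≤ t) (hm3 : t + m ≤ k + M)
    (hcase : t ≤ k + 8 ∨ (3 ≤ m ∧ t + m ≤ k + 2 + 8 * (m - 2))) : False := by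
  have hcc := compconst hx (by omega) hl
  have hK : ∀ r < k, Λ.att (Λ.comp (x r)) = Λ.pos (x k) := by
    intro r hr
    obtain ⟨q, rfl⟩ : ∃ q, k = q + 1 := ⟨k - 1, by omega⟩
    rw [hcc r hr, ← hcc q (by omega)]
    exact (Λ.adj01 _ _ (hx.1 q (by omega)).symm (h0 _ le_rfl (by omega)) (hl q (by omega))).symm
  have hP := block0 (Λ := Λ) hx (A := k) (m := M) hk (fun r hr => h0 _ (by omega) (by omega))
  have hdist : ∀ d, k + d < k + M → Λ.pos (x k) ≤ Λ.pos (x (k + d)) + d ∧
      Λ.pos (x (k + d)) ≤ Λ.pos (x k) + d := by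
    intro d hd
    rcases hP with h | h
    · have := h d (by omega)
      simp only [Nat.add_zero] at this
      omega
    · have := h d (by omega)
      simp only [Nat.add_zero] at this
      omega
  rcases hcase with hcase | ⟨hm3', hcase⟩
  · have h1 := hc 0 (by omega)
    have h2 := hdist (t - k) (by omega)
    have h3 : k + (t - k) = 0 + t := by omega
    rw [h3] at h2
    refine near C (hl 0 (by omega)) (h0 (0 + t) (by omega) (by omega)) ?_ ?_ h1
    · rw [hK 0 (by omega)]; omega
    · rw [hK 0 (by omega)]; omega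
  · refine avoid_path C hx (A := 1) (D := t + 1) (m := m - 2) (by omega) (by omega) (by omega)
      (K := Λ.comp (x 0)) ?_ ?_ ?_ ?_ ?_
    · intro r hr
      have := interior hx (r := r) (by omega) (hl _ (by omega)) (hl (r + 1) (by omega))
        (hl (r + 2) (by omega))
      rwa [Nat.add_comm 1 r]
    · intro r hr
      exact hcc _ (by omega)
    · intro r hr
      exact h0 _ (by omega) (by omega)
    · intro r hr
      rw [hK 0 (by omega)]
      have h2 := hdist (t + 1 + r - k) (by omega)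
      have h3 : k + (t + 1 + r - k) = t + 1 + r := by omega
      rw [h3] at h2
      omega
    · intro r hr
      have := hc (1 + r) (by omega)
      rw [this]
      congr 2
      omega

theorem rev_seq {t : ℕ} (hx : IsSeq G (2 * t) x) : IsSeq G (2 * t) (fun r => x (2 * t - 1 - r)) := by
  constructor
  · intro r hr
    have h := (hx.1 (2 * t - 1 - (r + 1)) (by omega)).symm
    have e : 2 * t - 1 - (r + 1) + 1 = 2 * t - 1 - r := by omega
    rw [e] at h
    exact h
  · intro r s hr hs h
    have := hx.2 _ _ (by omega) (by omega) h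
    omega

theorem nonrep (C : Col Λ f w u) {t : ℕ} (ht : 1 ≤ t) (hx : IsSeq G (2 * t) x)
    (hc : ∀ r < t, f (x r) = f (x (r + t))) : False := by
  obtain ⟨k, M, hkM, hl, h0, hr, hM⟩ := struct Λ hx
  rcases Nat.eq_zero_or_pos M with hM0 | hM0
  · -- everything in one component
    have hk := hM hM0
    subst hk
    have hcc := compconst hx le_rfl hl
    have hint : ∀ r, r + 2 < 2 * t → Λ.lev (x (r + 1)) = 1 := fun r hr' =>
      interior hx hr' (hl _ (by omega)) (hl _ (by omega)) (hl _ (by omega))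
    rcases (by omega : t = 1 ∨ t = 2 ∨ 3 ≤ t) with h | h | h
    · subst h
      have e := hc 0 (by omega)
      have a0 := hx.1 0 (by omega)
      have l0 := hl 0 (by omega)
      have l1 := hl 1 (by omega)
      have b0 := Λ.lev_le (x 0)
      have b1 := Λ.lev_le (x 1)
      have hc1 : Λ.comp (x 1) = Λ.comp (x 0) := hcc 1 (by omega)
      rcases (by omega : Λ.lev (x 0) = 1 ∨ Λ.lev (x 0) = 2) with h0' | h0' <;>
        rcases (by omega : Λ.lev (x 1) = 1 ∨ Λ.lev (x 1) = 2) with h1' | h1'
      · refine rep1 C hx (A := 0) (a := 1) (t := 1) (by omega) le_rfl le_rfl (by omega)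
          (K := Λ.comp (x 0)) ?_ ?_ ?_
        · intro r hr'
          rcases (by omega : r = 0 ∨ r = 1) with rfl | rfl
          · exact h0'
          · exact h1'
        · intro r hr'
          exact hcc _ (by omega)
        · intro r hr'
          obtain rfl : r = 0 := by omega
          exact e
      · have h3 := (C.f2 _ h1').1
        have h4 := Λ.adj12 _ _ a0 h0' h1'
        apply h3
        rw [hc1]
        have e' : f (x 0) = f (x 1) := e
        rw [← e', C.f1 _ h0', h4]
      · have h3 := (C.f2 _ h0').1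
        have h4 := Λ.adj12 _ _ a0.symm h1' h0'
        apply h3
        have e' : f (x 0) = f (x 1) := e
        rw [e', C.f1 _ h1', hc1]
        congr 1
      · exact Λ.adj22 _ _ a0 h0' h1'
    · subst h
      have e : f (x 0) = f (x 2) := hc 0 (by omega)
      have a0 : G.Adj (x 0) (x 1) := hx.1 0 (by omega)
      have a1 : G.Adj (x 1) (x 2) := hx.1 1 (by omega)
      have l0 := hl 0 (by omega)
      have b0 := Λ.lev_le (x 0)
      have i1 : Λ.lev (x 1) = 1 := hint 0 (by omega)
      have i2 : Λ.lev (x 2) = 1 := hint 1 (by omega)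
      have hc2 : Λ.comp (x 2) = Λ.comp (x 0) := hcc 2 (by omega)
      rcases (by omega : Λ.lev (x 0) = 1 ∨ Λ.lev (x 0) = 2) with h0' | h0'
      · refine rep1 C hx (A := 0) (a := 1) (t := 2) (by omega) le_rfl (by omega) (by omega)
          (K := Λ.comp (x 0)) ?_ ?_ ?_
        · intro r hr'
          rcases (by omega : r = 0 ∨ r = 1 ∨ r = 2) with rfl | rfl | rfl
          · exact h0'
          · exact i1
          · exact i2
        · intro r hr'
          exact hcc _ (by omega)
        · intro r hr'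
          obtain rfl : r = 0 := by omega
          exact e
      · have h3 := C.f2 _ h0'
        have h4 := Λ.adj12 _ _ a0.symm i1 h0'
        have h5 := Λ.adj11 _ _ a1 i1 i2
        rw [e, C.f1 _ i2, hc2] at h3
        rcases h5 with h5 | h5
        · apply h3.2.2
          congr 1
          omega
        · apply h3.2.1
          congr 1
          omega
    · refine rep1 C hx (A := 1) (a := t - 2) (t := t) (by omega) (by omega) ht (by omega)
        (K := Λ.comp (x 0)) ?_ ?_ ?_
      · intro r hr'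
        rw [Nat.add_comm 1 r]
        exact hint r (by omega)
      · intro r hr'
        exact hcc _ (by omega)
      · intro r hr'
        have := hc (1 + r) (by omega)
        rw [this]
        congr 2
        omega
  -- reversed data
  have hx' := rev_seq hx
  have hc' : ∀ r < t, f (x (2 * t - 1 - r)) = f (x (2 * t - 1 - (r + t))) := by
    intro r hr'
    have h := hc (t - 1 - r) (by omega)
    have e1 : t - 1 - r + t = 2 * t - 1 - r := by omega
    have e2 : 2 * t - 1 - (r + t) = t - 1 - r := by omega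
    rw [e2, h, e1]
  have hl' : ∀ r < 2 * t - (k + M), Λ.lev (x (2 * t - 1 - r)) ≠ 0 := fun r hr' =>
    hr _ (by omega) (by omega)
  have h0' : ∀ r, 2 * t - (k + M) ≤ r → r < 2 * t - (k + M) + M →
      Λ.lev (x (2 * t - 1 - r)) = 0 := fun r h1 h2 => h0 _ (by omega) (by omega)
  -- the main path part inside the first half
  rcases Nat.lt_or_ge t (k + M) with hcase1 | hcase1
  swap
  · have z0 := h0 (k + M - 1) (by omega) (by omega)
    have z1 := hr (k + M) le_rfl (by omega)
    have e : k + M - 1 + 1 = k + M := by omega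
    have z1' : Λ.lev (x (k + M - 1 + 1)) ≠ 0 := by rw [e]; exact z1
    have h1 := noreturn hx z0 z1' (k + M - 1 + t) (by omega) (by omega)
    have h2 := Λ.adj01 _ _ (hx.1 (k + M - 1) (by omega)) z0 z1'
    refine near C h1.1 z0 ?_ ?_ (hc (k + M - 1) (by omega)).symm
    · rw [h1.2, ← h2]; omega
    · rw [h1.2, ← h2]; omega
  rcases Nat.lt_or_ge k t with hcase2 | hcase2
  swap
  · have hcc := compconst hx (by omega) hl
    obtain ⟨q, rfl⟩ : ∃ q, k = q + 1 := ⟨k - 1, by omega⟩
    have z0 := h0 (q + 1) le_rfl (by omega)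
    have z1 := hl q (by omega)
    have h2 := Λ.adj01 _ _ (hx.1 q (by omega)).symm z0 z1
    have h3 := hc (q + 1 - t) (by omega)
    have e : q + 1 - t + t = q + 1 := by omega
    rw [e] at h3
    have h4 : Λ.comp (x (q + 1 - t)) = Λ.comp (x q) :=
      (hcc _ (by omega)).trans (hcc q (by omega)).symm
    refine near C (hl (q + 1 - t) (by omega)) z0 ?_ ?_ h3
    · rw [h4, ← h2]; omega
    · rw [h4, ← h2]; omega
  -- the midpoint is inside the main path part
  rcases Nat.lt_or_ge t M with hcase3 | hcase3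
  · by_cases h4 : t < 4 * (M - t)
    · refine rep0 C hx (A := k) (a := M - t) (t := t) (by omega) (by omega) ht h4 ?_ ?_
      · intro r hr'
        exact h0 _ (by omega) (by omega)
      · intro r hr'
        have := hc (k + r) (by omega)
        rw [this]
        congr 2
        omega
    · rcases Nat.lt_or_ge k (2 * t - (k + M)) with h5 | h5
      · exact left_lemma C hx' hc' (k := 2 * t - (k + M)) (M := M) (m := 2 * t - (k + M))
          (by omega) hl' h0' (by omega) le_rfl (by omega) (by omega) (by omega)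
      · exact left_lemma C hx hc (k := k) (M := M) (m := k) (by omega) hl h0 (by omega) le_rfl
          (by omega) (by omega) (by omega)
  · rcases Nat.lt_or_ge (k + M - t) (t - k) with h5 | h5
    · exact left_lemma C hx' hc' (k := 2 * t - (k + M)) (M := M) (m := t - k)
        (by omega) hl' h0' (by omega) (by omega) (by omega) (by omega) (by omega)
    · exact left_lemma C hx hc (k := k) (M := M) (m := k + M - t) (by omega) hl h0 (by omega)
        (by omega) (by omega) (by omega) (by omega)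

end

end Pool.Agent.R795.Thue
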