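import Pool.Agent.R795.Thue.Defs

/-! TH-W: the word lemma (Rosenfeld counting) for MP_924390_co. -/

namespace Pool.Agent.R795.Thue

namespace Words

variable (L : ℕ → Finset ℕ) (w : ℕ → ℕ) (i : ℕ)

/-- valid words of length `j`, extended by zero -/
def S (j : ℕ) : Set (ℕ → ℕ) :=
  {u | (∀ r < j, u r ∈ L r) ∧ (∀ r, j ≤ r → u r = 0) ∧ Strong j u ∧ Avoid j u w i}

/-- the prefix of length `k` -/
def trunc (k : ℕ) (u : ℕ → ℕ) : ℕ → ℕ := fun r => if r < k then u r else 0

theorem trunc_of_lt {k r : ℕ} (u : ℕ → ℕ) (h : r < k) : trunc k u r = u r := if_pos h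
theorem trunc_of_le {k r : ℕ} (u : ℕ → ℕ) (h : k ≤ r) : trunc k u r = 0 := if_neg (by omega)

theorem strong_congr {j k : ℕ} {u v : ℕ → ℕ} (hkj : k ≤ j) (h : ∀ r < k, u r = v r)
    (hu : Strong j u) : Strong k v := by
  intro a t b ha ht hta hb hv
  refine hu a t b ha ht hta (hb.trans hkj) (fun r hr => ?_)
  rw [h (b + r) (by omega), h (b + t + r) (by omega)]
  exact hv r hr

theorem avoid_congr {j k : ℕ} {u v : ℕ → ℕ} (hkj : k ≤ j) (h : ∀ r < k, u r = v r)
    (hu : Avoid j u w i) : Avoid k v w i := by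
  intro m a b hm hb ha1 ha2
  obtain ⟨h1, h2⟩ := hu m a b hm (hb.trans hkj) ha1 ha2
  refine ⟨fun hv => h1 fun r hr => ?_, fun hv => h2 fun r hr => ?_⟩
  · rw [h (b + r) (by omega)]; exact hv r hr
  · rw [h (b + r) (by omega)]; exact hv r hr

theorem trunc_mem {j k : ℕ} (hk : k ≤ j) {u : ℕ → ℕ} (hu : u ∈ S L w i j) :
    trunc k u ∈ S L w i k := by
  obtain ⟨h1, _, h3, h4⟩ := hu
  refine ⟨fun r hr => ?_, fun r hr => trunc_of_le u hr, ?_, ?_⟩
  · rw [trunc_of_lt u hr]; exact h1 r (by omega)
  · exact strong_congr hk (fun r hr => (trunc_of_lt u hr).symm) h3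
  · exact avoid_congr w i hk (fun r hr => (trunc_of_lt u hr).symm) h4

/-- all the extensions of the valid words of length `j` by a letter -/
def X (j : ℕ) : Set (ℕ → ℕ) :=
  (fun p : (ℕ → ℕ) × ℕ => Function.update p.1 j p.2) '' (S L w i j ×ˢ (L j : Set ℕ))

theorem S_succ_subset (j : ℕ) : S L w i (j + 1) ⊆ X L w i j := by
  intro u hu
  refine ⟨(trunc j u, u j), ⟨trunc_mem L w i (Nat.le_succ j) hu, hu.1 j (Nat.lt_succ_self j)⟩, ?_⟩
  funext r
  simp only
  by_cases hr : r = j
  · subst hr; simp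
  · rw [Function.update_of_ne hr]
    rcases lt_or_gt_of_ne hr with h | h
    · exact trunc_of_lt u h
    · rw [trunc_of_le u h.le, hu.2.1 r h]

theorem finite_S (j : ℕ) : (S L w i j).Finite := by
  induction j with
  | zero =>
    refine (Set.finite_singleton (fun _ => 0 : ℕ → ℕ)).subset ?_
    intro u hu
    exact funext fun r => hu.2.1 r (Nat.zero_le r)
  | succ j ih =>
    exact ((ih.prod (L j).finite_toSet).image _).subset (S_succ_subset L w i j)

theorem injOn (j : ℕ) : Set.InjOn (fun p : (ℕ → ℕ) × ℕ => Function.update p.1 j p.2)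
    (S L w i j ×ˢ (L j : Set ℕ)) := by
  rintro ⟨v, a⟩ ⟨hv, -⟩ ⟨v', a'⟩ ⟨hv', -⟩ h
  simp only at h hv hv'
  have h1 : a = a' := by
    have := congrFun h j
    simpa using this
  have h2 : v = v' := by
    funext r
    by_cases hr : r = j
    · subst hr; rw [hv.2.1 r le_rfl, hv'.2.1 r le_rfl]
    · have := congrFun h r
      simpa [Function.update_of_ne hr] using this
  rw [h1, h2]

theorem ncard_X (j : ℕ) : (X L w i j).ncard = (S L w i j).ncard * (L j).card := by
  rw [X, (injOn L w i j).ncard_image, Set.ncard_prod, Set.ncard_coe_finset]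

theorem finite_X (j : ℕ) : (X L w i j).Finite :=
  ((finite_S L w i j).prod (L j).finite_toSet).image _

/-- the data determining the last `m` letters -/
abbrev Code (m : ℕ) := Fin (4 * m) ⊕ (Fin (17 * m) × Bool)

/-- the last `m` letters of `u` (from `p` on) are determined by the code -/
def Det (m p : ℕ) (u : ℕ → ℕ) : Code m → Prop
  | Sum.inl t => 1 ≤ t.1 ∧ ∀ s, p ≤ s → s < p + m → u s = u (s - t.1)
  | Sum.inr (a, true) => ∀ r < m, u (p + r) = w (a.1 + (i - 8 * m) + r)
  | Sum.inr (a, false) => ∀ r < m, u (p + r) = w (a.1 + (i - 8 * m) + (m - 1 - r))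

/-- the bad words -/
def Bad (j m : ℕ) : Set (ℕ → ℕ) :=
  {u | u ∈ X L w i j ∧ ∃ c : Code m, Det w i m (j + 1 - m) u c ∧ ∀ t, c = Sum.inl t → 1 ≤ j + 1 - m}

theorem X_props {j : ℕ} {u : ℕ → ℕ} (hu : u ∈ X L w i j) :
    (∀ r < j + 1, u r ∈ L r) ∧ (∀ r, j + 1 ≤ r → u r = 0) ∧ trunc j u ∈ S L w i j := by
  obtain ⟨⟨v, a⟩, ⟨hv, ha⟩, rfl⟩ := hu
  simp only at hv ha ⊢
  have htr : trunc j (Function.update v j a) = v := by
    funext r
    by_cases hr : r < j
    · rw [trunc_of_lt _ hr, Function.update_of_ne (by omega)]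
    · rw [trunc_of_le _ (by omega), hv.2.1 r (by omega)]
  refine ⟨fun r hr => ?_, fun r hr => ?_, by rw [htr]; exact hv⟩
  · by_cases h : r = j
    · subst h; simpa using ha
    · rw [Function.update_of_ne h]; exact hv.1 r (by omega)
  · rw [Function.update_of_ne (by omega)]; exact hv.2.1 r (by omega)

theorem X_subset (j : ℕ) :
    X L w i j ⊆ S L w i (j + 1) ∪ ⋃ m ∈ Finset.Icc 1 (j + 1), Bad L w i j m := by
  intro u hu
  obtain ⟨h1, h2, h3⟩ := X_props L w i hu
  by_cases hgood : Strong (j + 1) u ∧ Avoid (j + 1) u w i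
  · exact Or.inl ⟨h1, h2, hgood.1, hgood.2⟩
  · right
    have htr : ∀ r < j, trunc j u r = u r := fun r hr => trunc_of_lt u hr
    have hS : Strong j u := strong_congr le_rfl htr h3.2.2.1
    have hA : Avoid j u w i := avoid_congr w i le_rfl htr h3.2.2.2
    rw [not_and_or] at hgood
    simp only [Set.mem_iUnion]
    rcases hgood with hg | hg
    · unfold Strong at hg
      push Not at hg
      obtain ⟨m, t, b, hm, ht, htm, hb, hr⟩ := hg
      have hb' : b + t + m = j + 1 := by
        by_contra hne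
        exact hS m t b hm ht htm (by omega) hr
      refine ⟨m, by rw [Finset.mem_Icc]; omega, hu, Sum.inl ⟨t, htm⟩, ⟨ht, ?_⟩,
        fun _ _ => by omega⟩
      intro s hs1 hs2
      have := hr (s - (b + t)) (by omega)
      have e1 : b + t + (s - (b + t)) = s := by omega
      have e2 : b + (s - (b + t)) = s - t := by omega
      rw [e1, e2] at this
      exact this.symm
    · unfold Avoid at hg
      push Not at hg
      obtain ⟨m, a, b, hm, hb, ha1, ha2, hr⟩ := hg
      have hb' : b + m = j + 1 := by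
        by_contra hne
        obtain ⟨x1, x2⟩ := hA m a b hm (by omega) ha1 ha2
        push Not at x1
        exact x2 (hr x1)
      have hbp : j + 1 - m = b := by omega
      have hcode : a - (i - 8 * m) < 17 * m := by omega
      have hae : a - (i - 8 * m) + (i - 8 * m) = a := by omega
      refine ⟨m, by rw [Finset.mem_Icc]; omega, hu, ?_⟩
      by_cases hf : ∀ r < m, u (b + r) = w (a + r)
      · refine ⟨Sum.inr (⟨a - (i - 8 * m), hcode⟩, true), ?_, fun _ h => by simp at h⟩
        intro r hr'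
        simp only
        rw [hbp, hae]
        exact hf r hr'
      · refine ⟨Sum.inr (⟨a - (i - 8 * m), hcode⟩, false), ?_, fun _ h => by simp at h⟩
        intro r hr'
        simp only
        rw [hbp, hae]
        push Not at hf
        exact hr hf r hr'

theorem det_inj {j m : ℕ} (hmj : m ≤ j + 1) {u u' : ℕ → ℕ} {c : Code m}
    (hu : Det w i m (j + 1 - m) u c) (hu' : Det w i m (j + 1 - m) u' c)
    (hc : ∀ t, c = Sum.inl t → 1 ≤ j + 1 - m)
    (hp : ∀ r < j + 1 - m, u r = u' r) (h0 : ∀ r, j + 1 ≤ r → u r = u' r) : u = u' := by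
  funext r
  rcases lt_or_ge r (j + 1 - m) with hr | hr
  · exact hp r hr
  rcases lt_or_ge r (j + 1) with hr2 | hr2
  · rcases c with t | ⟨a, _ | _⟩
    · obtain ⟨ht, hu⟩ := hu
      obtain ⟨-, hu'⟩ := hu'
      have hc' := hc t rfl
      have key : ∀ n, ∀ s, s ≤ n → s < j + 1 → u s = u' s := by
        intro n
        induction n with
        | zero =>
          intro s hs hs2
          exact hp s (by omega)
        | succ n ih =>
          intro s hs hs2
          rcases lt_or_ge s (j + 1 - m) with h | h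
          · exact hp s h
          · rw [hu s h (by omega), hu' s h (by omega)]
            exact ih (s - t.1) (by omega) (by omega)
      exact key r r le_rfl hr2
    · have e : j + 1 - m + (r - (j + 1 - m)) = r := by omega
      have h1 := hu (r - (j + 1 - m)) (by omega)
      have h2 := hu' (r - (j + 1 - m)) (by omega)
      rw [e] at h1 h2
      rw [h1, h2]
    · have e : j + 1 - m + (r - (j + 1 - m)) = r := by omega
      have h1 := hu (r - (j + 1 - m)) (by omega)
      have h2 := hu' (r - (j + 1 - m)) (by omega)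
      rw [e] at h1 h2
      rw [h1, h2]
  · exact h0 r hr2

theorem ncard_Bad {j m : ℕ} (hm : 1 ≤ m) (hmj : m ≤ j + 1) :
    (Bad L w i j m).ncard ≤ 38 * m * (S L w i (j + 1 - m)).ncard := by
  classical
  have : Nonempty (Code m) := ⟨Sum.inl ⟨0, by omega⟩⟩
  have hcode : ∀ u ∈ Bad L w i j m, ∃ c : Code m, Det w i m (j + 1 - m) u c ∧
      ∀ t, c = Sum.inl t → 1 ≤ j + 1 - m := fun u hu => hu.2
  choose! c hc using hcode
  have h1 : (Bad L w i j m).ncard ≤
      (S L w i (j + 1 - m) ×ˢ (Set.univ : Set (Code m))).ncard := by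
    refine Set.ncard_le_ncard_of_injOn (fun u => (trunc (j + 1 - m) u, c u)) ?_ ?_
      ((finite_S L w i _).prod Set.finite_univ)
    · intro u hu
      obtain ⟨-, -, h3⟩ := X_props L w i hu.1
      have h4 := trunc_mem L w i (show j + 1 - m ≤ j by omega) h3
      have h5 : trunc (j + 1 - m) (trunc j u) = trunc (j + 1 - m) u := by
        funext r
        by_cases hr : r < j + 1 - m
        · rw [trunc_of_lt _ hr, trunc_of_lt _ hr, trunc_of_lt _ (by omega)]
        · rw [trunc_of_le _ (by omega), trunc_of_le _ (by omega)]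
      rw [h5] at h4
      exact ⟨h4, Set.mem_univ _⟩
    · intro u hu u' hu' h
      simp only [Prod.mk.injEq] at h
      obtain ⟨-, h2, -⟩ := X_props L w i hu.1
      obtain ⟨-, h2', -⟩ := X_props L w i hu'.1
      have hcu := hc u hu
      have hcu' := hc u' hu'
      rw [← h.2] at hcu'
      refine det_inj w i hmj hcu.1 hcu'.1 hcu.2 (fun r hr => ?_) (fun r hr => ?_)
      · have := congrFun h.1 r
        rwa [trunc_of_lt _ hr, trunc_of_lt _ hr] at this
      · rw [h2 r hr, h2' r hr]
  refine h1.trans ?_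
  rw [Set.ncard_prod, Set.ncard_univ, Nat.card_eq_fintype_card]
  simp only [Fintype.card_sum, Fintype.card_fin, Fintype.card_prod, Fintype.card_bool]
  apply le_of_eq
  ring

theorem ncard_biUnion_le (s : Finset ℕ) (B : ℕ → Set (ℕ → ℕ)) :
    (⋃ m ∈ s, B m).ncard ≤ ∑ m ∈ s, (B m).ncard := by
  classical
  induction s using Finset.induction with
  | empty => simp
  | insert a s ha ih =>
    rw [Finset.set_biUnion_insert, Finset.sum_insert ha]
    exact (Set.ncard_union_le _ _).trans (Nat.add_le_add_left ih _)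

theorem sum_bound (M : ℕ) : ∑ m ∈ Finset.Icc 1 M, (m : ℝ) * (1 / 2) ^ (m - 1) ≤
    4 - (M + 2) * (1 / 2) ^ M * 2 := by
  induction M with
  | zero => simp; norm_num
  | succ M ih =>
    rw [Finset.sum_Icc_succ_top (by omega)]
    push_cast
    have e : 4 - ((M : ℝ) + 1 + 2) * (1 / 2) ^ (M + 1) * 2 =
        (4 - ((M : ℝ) + 2) * (1 / 2) ^ M * 2) + (M + 1) * (1 / 2) ^ M := by
      rw [pow_succ]; ring
    rw [e]
    linarith

theorem main (hL : ∀ j, 160 ≤ (L j).card) (j : ℕ) :
    2 * (S L w i j).ncard ≤ (S L w i (j + 1)).ncard := by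
  induction j using Nat.strong_induction_on with
  | _ j ih =>
    set N : ℕ → ℝ := fun k => ((S L w i k).ncard : ℝ) with hN
    have hN0 : ∀ k, 0 ≤ N k := fun k => Nat.cast_nonneg _
    -- growth
    have hgrow : ∀ m, 1 ≤ m → m ≤ j + 1 → N (j + 1 - m) ≤ N j * (1 / 2) ^ (m - 1) := by
      intro m hm
      induction m, hm using Nat.le_induction with
      | base => intro _; simp
      | succ m hm ih2 =>
        intro hmj
        have h1 := ih2 (by omega)
        have h2 := ih (j + 1 - (m + 1)) (by omega)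
        have e : j + 1 - (m + 1) + 1 = j + 1 - m := by omega
        rw [e] at h2
        have h3 : 2 * N (j + 1 - (m + 1)) ≤ N (j + 1 - m) := by
          simp only [hN]
          exact_mod_cast h2
        have e2 : m + 1 - 1 = (m - 1) + 1 := by omega
        rw [e2, pow_succ]
        linarith
    have hX1 : (X L w i j).ncard ≤ (S L w i (j + 1)).ncard +
        ∑ m ∈ Finset.Icc 1 (j + 1), (Bad L w i j m).ncard := by
      refine (Set.ncard_le_ncard (X_subset L w i j) ?_).trans
        ((Set.ncard_union_le _ _).trans (Nat.add_le_add_left (ncard_biUnion_le _ _) _))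
      refine (finite_S L w i _).union ?_
      refine Set.Finite.biUnion (Finset.finite_toSet _) (fun m _ => ?_)
      exact (finite_X L w i j).subset (fun u hu => hu.1)
    have hX2 : (160 : ℝ) * N j ≤ N (j + 1) +
        ∑ m ∈ Finset.Icc 1 (j + 1), 38 * (m : ℝ) * N (j + 1 - m) := by
      have h1 : 160 * (S L w i j).ncard ≤ (X L w i j).ncard := by
        rw [ncard_X, mul_comm]
        exact Nat.mul_le_mul_left _ (hL j)
      have h2 : ∑ m ∈ Finset.Icc 1 (j + 1), (Bad L w i j m).ncard ≤
          ∑ m ∈ Finset.Icc 1 (j + 1), 38 * m * (S L w i (j + 1 - m)).ncard := by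
        refine Finset.sum_le_sum fun m hm => ?_
        rw [Finset.mem_Icc] at hm
        exact ncard_Bad L w i hm.1 hm.2
      have h3 := h1.trans (hX1.trans (Nat.add_le_add_left h2 _))
      simp only [hN]
      exact_mod_cast h3
    have hsum : ∑ m ∈ Finset.Icc 1 (j + 1), 38 * (m : ℝ) * N (j + 1 - m) ≤ 152 * N j := by
      have h1 : ∑ m ∈ Finset.Icc 1 (j + 1), 38 * (m : ℝ) * N (j + 1 - m) ≤
          ∑ m ∈ Finset.Icc 1 (j + 1), 38 * N j * ((m : ℝ) * (1 / 2) ^ (m - 1)) := by
        refine Finset.sum_le_sum fun m hm => ?_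
        rw [Finset.mem_Icc] at hm
        have h2 := hgrow m hm.1 hm.2
        have h3 : (0:ℝ) ≤ 38 * (m : ℝ) := by positivity
        calc 38 * (m : ℝ) * N (j + 1 - m) ≤ 38 * (m : ℝ) * (N j * (1 / 2) ^ (m - 1)) :=
              mul_le_mul_of_nonneg_left h2 h3
          _ = 38 * N j * ((m : ℝ) * (1 / 2) ^ (m - 1)) := by ring
      rw [← Finset.mul_sum] at h1
      have h4 := sum_bound (j + 1)
      have h5 : ∑ m ∈ Finset.Icc 1 (j + 1), (m : ℝ) * (1 / 2) ^ (m - 1) ≤ 4 := by
        refine h4.trans ?_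
        have : (0:ℝ) ≤ (((j + 1 : ℕ) : ℝ) + 2) * (1 / 2) ^ (j + 1) * 2 := by positivity
        linarith
      have h6 := mul_le_mul_of_nonneg_left h5 (by have := hN0 j; positivity : (0:ℝ) ≤ 38 * N j)
      linarith
    have hfin : 2 * N j ≤ N (j + 1) := by
      have := hN0 j
      linarith
    simp only [hN] at hfin
    exact_mod_cast hfin

end Words

theorem words : stmWords := by
  intro n L hL w i
  have h : ∀ j, 1 ≤ (Words.S L w i j).ncard := by
    intro j
    induction j with
    | zero =>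
      have : (fun _ => 0 : ℕ → ℕ) ∈ Words.S L w i 0 := by
        refine ⟨fun r hr => absurd hr (Nat.not_lt_zero r), fun r _ => rfl, ?_, ?_⟩
        · intro a t b ha ht _ hb
          omega
        · intro m a b hm hb
          omega
      exact (Set.ncard_pos (Words.finite_S L w i 0)).2 ⟨_, this⟩
    | succ j ih =>
      have := Words.main L w i hL j
      omega
  obtain ⟨u, hu⟩ := (Set.ncard_pos (Words.finite_S L w i n)).1 (h n)
  exact ⟨u, hu.1, hu.2.2.1, hu.2.2.2⟩

end Pool.Agent.R795.Thue
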